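import Mathlib
import Pool.Agent.Lib.MP_fc0bf6_an.LitC

set_option autoImplicit false

namespace Pool.Agent.Results.MP_fc0bf6_an.LiteralForm

open Filter Topology Pool.Agent.Lib.MP_fc0bf6_an

/-- The Nevanlinna characteristic `T(r, f) = m(r, f) + N(r, f)`, where `m(r, f)` is the mean of
`log⁺ |f|` over the circle `|z| = r`. -/
noncomputable def charT (f : ℂ → ℂ) (r : ℝ) : ℝ :=
  (2 * Real.pi)⁻¹ * (∫ θ in (0 : ℝ)..(2 * Real.pi),
    Real.posLog ‖f ((r : ℂ) * Complex.exp ((θ : ℂ) * Complex.I))‖) + intCount f r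

/-- The lower order `liminf log T(r, f) / log r`. -/
noncomputable def lowerOrder (f : ℂ → ℂ) : EReal :=
  liminf (fun r : ℝ => ((Real.log (charT f r) / Real.log r : ℝ) : EReal)) atTop

/-- Hypothesis (H): `μ(r) / log r → ∞`. -/
def GrowthH (f : ℂ → ℂ) : Prop :=
  Tendsto (fun r : ℝ => logMax f r / ((Real.log r : ℝ) : EReal)) atTop (𝓝 ⊤)

/-- `A(f) = limsup μ(r)⁻¹ log m_0(r, f)`, over all radii for which the quotient is defined, that
is, all radii except those with `m_0(r, f) = 0` and `M(r, f) = ∞`. -/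
noncomputable def upperA (f : ℂ → ℂ) : EReal :=
  limsup (fun r : ℝ => ENNReal.log (minMod f r) / logMax f r)
    (atTop ⊓ 𝓟 {r : ℝ | ¬ (minMod f r = 0 ∧ maxMod f r = ⊤)})

/-- `B(f) = limsup μ(r)⁻¹ N(r, f)`. -/
noncomputable def upperB (f : ℂ → ℂ) : EReal :=
  limsup (fun r : ℝ => ((intCount f r : ℝ) : EReal) / logMax f r) atTop

/-- `L(f) = A(f) + π λ sin(π λ) B(f)`. -/
noncomputable def bigL (lam : ℝ) (f : ℂ → ℂ) : EReal :=
  upperA f + ((Real.pi * lam * Real.sin (Real.pi * lam) : ℝ) : EReal) * upperB f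

lemma charT_eq {f : ℂ → ℂ} (hf : Meromorphic f) {r : ℝ} (hr : 0 < r) :
    charT f r = ValueDistribution.characteristic f ⊤ r := by
  unfold charT
  rw [ValueDistribution.characteristic, Pi.add_apply, intCount_eq hf hr,
    ValueDistribution.proximity_top, Real.circleAverage_def, smul_eq_mul]
  congr 3
  funext θ
  simp only [circleMap, zero_add]

/-- For every `λ` in `[0.99995, 1)` there is a meromorphic function of lower order `λ` (of regular
growth: its characteristic is comparable to `r ^ λ`) with (H), `A(f) ≤ -6/5` and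
`L(f) < -1 ≤ cos(π λ)`. -/
theorem result (lam : ℝ) (h1 : 99995 / 100000 ≤ lam) (h2 : lam < 1) :
    ∃ f : ℂ → ℂ, MeromorphicNFOn f Set.univ ∧ (¬ ∃ c : ℂ, ∀ z : ℂ, f z = c) ∧
      lowerOrder f = (lam : EReal) ∧
      (∃ c C : ℝ, 0 < c ∧ ∀ r : ℝ, 2 ≤ r →
        c * r ^ lam ≤ charT f r ∧ charT f r ≤ C * r ^ lam) ∧
      GrowthH f ∧
      upperA f ≤ ((-(6 / 5) : ℝ) : EReal) ∧
      bigL lam f < ((-1 : ℝ) : EReal) ∧
      bigL lam f < ((Real.cos (Real.pi * lam) : ℝ) : EReal) := by
  set q : ℝ := (2 : ℝ) ^ (2 / lam) with hqd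
  have hlam : 0 < lam := by linarith
  have hq : 4 < q := by
    have h : (2 : ℝ) ^ (2 : ℝ) < (2 : ℝ) ^ (2 / lam) := by
      apply Real.rpow_lt_rpow_of_exponent_lt (by norm_num)
      rw [lt_div_iff₀ hlam]; linarith
    have h3 : (2 : ℝ) ^ (2 : ℝ) = 4 := by
      rw [show (2 : ℝ) = ((2 : ℕ) : ℝ) by norm_num, Real.rpow_natCast]; norm_num
    rw [h3] at h
    exact h
  have hq2 : q ≤ 22 / 5 := by
    have h1 : (2 : ℝ) ^ (2 / lam) ≤ (2 : ℝ) ^ (2 + 2 / 15 : ℝ) := by
      apply Real.rpow_le_rpow_of_exponent_le (by norm_num)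
      rw [div_le_iff₀ hlam]; linarith
    rw [hqd]
    refine h1.trans ?_
    rw [Real.rpow_add (by norm_num)]
    have h2 : (2 : ℝ) ^ (2 : ℝ) = 4 := by
      rw [show (2 : ℝ) = ((2 : ℕ) : ℝ) by norm_num, Real.rpow_natCast]; norm_num
    have h3 : (2 : ℝ) ^ (2 / 15 : ℝ) ≤ 11 / 10 := by
      have h4 : ((2 : ℝ) ^ (2 / 15 : ℝ)) ^ 15 ≤ (11 / 10 : ℝ) ^ 15 := by
        rw [← Real.rpow_natCast, ← Real.rpow_mul (by norm_num)]
        rw [show (2 / 15 : ℝ) * ((15 : ℕ) : ℝ) = ((2 : ℕ) : ℝ) by norm_num, Real.rpow_natCast]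
        norm_num
      exact le_of_pow_le_pow_left₀ (by norm_num) (by norm_num) h4
    rw [h2]
    linarith
  have hmer := meromorphic_FF hq
  -- the characteristic
  have hT : ∀ r : ℝ, 2 ≤ r → 7 / 800 * r ^ lam ≤ charT (FF q) r ∧
      charT (FF q) r ≤ 48 * r ^ lam := by
    intro r hr
    rw [charT_eq hmer (by linarith)]
    refine ⟨char_FF_ge hq hq2 hlam h2 hqd hr, ?_⟩
    obtain ⟨n, h5, h6⟩ := exists_nat_pow_near
      (one_le_pow₀ (by linarith : 1 ≤ r) (n := 2)) (by linarith : 1 < q)
    have h2 := char_FF_le hq hq2 (by linarith : 1 ≤ r) h6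
    have h7 := two_pow_le hlam hq hqd (by linarith : 0 ≤ r) h5
    linarith
  have hfacts := fun (r : ℝ) (hr : 1 ≤ r) => circle_facts hq hq2 hlam hqd hr
  have hA : upperA (FF q) ≤ ((-(6 / 5) : ℝ) : EReal) := by
    unfold upperA
    apply limsup_le_of_le
    · isBoundedDefault
    · rw [eventually_inf_principal]
      filter_upwards [eventually_ge_atTop 1] with r hr hbad
      exact (hfacts r hr).2.1 hbad
  have hB : upperB (FF q) ≤ ((343 : ℝ) : EReal) := by
    unfold upperB
    apply limsup_le_of_le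
    · isBoundedDefault
    · filter_upwards [eventually_ge_atTop 1] with r hr
      exact (hfacts r hr).2.2
  have hL : bigL lam (FF q) < ((-1 : ℝ) : EReal) := by
    have hs1 : Real.sin (Real.pi * lam) = Real.sin (Real.pi * (1 - lam)) := by
      rw [← Real.sin_pi_sub]
      congr 1
      ring
    have hs2 : 0 ≤ Real.sin (Real.pi * lam) := by
      apply Real.sin_nonneg_of_nonneg_of_le_pi
      · have := Real.pi_pos; positivity
      · have := Real.pi_pos; nlinarith
    have hs3 : Real.sin (Real.pi * lam) ≤ Real.pi * (1 / 20000) := by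
      rw [hs1]
      have h3 : Real.sin (Real.pi * (1 - lam)) ≤ Real.pi * (1 - lam) :=
        Real.sin_le (by
          have := Real.pi_pos
          have h4 : 0 ≤ 1 - lam := by linarith
          positivity)
      have h5 : Real.pi * (1 - lam) ≤ Real.pi * (1 / 20000) := by
        have := Real.pi_pos
        gcongr
        linarith
      linarith
    have hc0 : 0 ≤ Real.pi * lam * Real.sin (Real.pi * lam) := by
      have := Real.pi_pos; positivity
    have hc1 : Real.pi * lam * Real.sin (Real.pi * lam) * 343 < 1 / 5 := by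
      have hpi : Real.pi < 3.15 := Real.pi_lt_d2
      have hpi0 := Real.pi_pos
      have h7 : Real.pi * lam * Real.sin (Real.pi * lam) * 343 ≤
          Real.pi * 1 * (Real.pi * (1 / 20000)) * 343 := by gcongr
      have h8 : Real.pi * 1 * (Real.pi * (1 / 20000)) * 343 ≤
          3.15 * 1 * (3.15 * (1 / 20000)) * 343 := by gcongr
      norm_num at h8 h7 ⊢
      linarith
    calc bigL lam (FF q) ≤ ((-(6 / 5) : ℝ) : EReal) +
          ((Real.pi * lam * Real.sin (Real.pi * lam) : ℝ) : EReal) * ((343 : ℝ) : EReal) := by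
          unfold bigL
          apply add_le_add hA
          apply mul_le_mul_of_nonneg_left hB
          exact_mod_cast hc0
      _ = ((-(6 / 5) + Real.pi * lam * Real.sin (Real.pi * lam) * 343 : ℝ) : EReal) := by
          rw [EReal.coe_add, EReal.coe_mul _ (343 : ℝ)]
      _ < ((-1 : ℝ) : EReal) := by
          rw [EReal.coe_lt_coe_iff]
          linarith
  refine ⟨FF q, normalForm_FF hq, ?_, ?_, ⟨7 / 800, 48, by norm_num, hT⟩, ?_, hA, hL, ?_⟩
  · -- not constant
    rintro ⟨c, hc⟩
    have hG : GG q Complex.I = 0 := by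
      by_contra h
      have := factor_ne_zero (nn1 hq) (summable1 hq) (fun k => by positivity) h 0
      apply this
      simp
    have h3 : FF q Complex.I = 0 := by rw [FF, hG, zero_div]
    have h4 : FF q 0 = 1 := by rw [FF, GG_zero, HH_zero, div_one]
    rw [hc] at h3 h4
    rw [h3] at h4
    exact zero_ne_one h4
  · -- the lower order
    have hlog := Real.tendsto_log_atTop
    have hlim : Tendsto (fun r : ℝ => Real.log (charT (FF q) r) / Real.log r) atTop (𝓝 lam) := by
      have e : ∀ a : ℝ, Tendsto (fun r : ℝ => Real.log a / Real.log r + lam) atTop (𝓝 lam) := by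
        intro a
        have := (hlog.const_div_atTop (Real.log a)).add_const lam
        simpa using this
      refine tendsto_of_tendsto_of_tendsto_of_le_of_le' (e (7 / 800)) (e 48) ?_ ?_
      · filter_upwards [eventually_ge_atTop 2] with r hr
        have h3 : 0 < r ^ lam := Real.rpow_pos_of_pos (by linarith) _
        have h4 : 0 < Real.log r := Real.log_pos (by linarith)
        have h5 := Real.log_le_log (by positivity) (hT r hr).1
        rw [Real.log_mul (by norm_num) h3.ne', Real.log_rpow (by linarith)] at h5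
        rw [div_add' _ _ _ h4.ne', div_le_div_iff_of_pos_right h4]
        exact h5
      · filter_upwards [eventually_ge_atTop 2] with r hr
        have h3 : 0 < r ^ lam := Real.rpow_pos_of_pos (by linarith) _
        have h4 : 0 < Real.log r := Real.log_pos (by linarith)
        have h6 : 0 < charT (FF q) r := lt_of_lt_of_le (by positivity) (hT r hr).1
        have h5 := Real.log_le_log h6 (hT r hr).2
        rw [Real.log_mul (by norm_num) h3.ne', Real.log_rpow (by linarith)] at h5
        rw [div_add' _ _ _ h4.ne', div_le_div_iff_of_pos_right h4]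
        exact h5
    unfold lowerOrder
    exact ((continuous_coe_real_ereal.tendsto lam).comp hlim).liminf_eq
  · -- (H)
    unfold GrowthH
    rw [EReal.tendsto_nhds_top_iff_real]
    intro x
    have h3 : ∀ᶠ r : ℝ in atTop, Real.log r ≤ (7 / 200 / (|x| + 1)) * r ^ lam := by
      have := (isLittleO_log_rpow_atTop hlam).bound
        (show (0 : ℝ) < 7 / 200 / (|x| + 1) by positivity)
      filter_upwards [this, eventually_ge_atTop 1] with r hr hr1
      rw [Real.norm_of_nonneg (Real.log_nonneg hr1),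
        Real.norm_of_nonneg (Real.rpow_nonneg (by linarith) _)] at hr
      exact hr
    filter_upwards [h3, eventually_ge_atTop 2] with r hr hr2
    have h4 : 0 < Real.log r := Real.log_pos (by linarith)
    have h5 := (hfacts r (by linarith)).1
    have h6 : (((7 / 200 * r ^ lam : ℝ) : EReal) / ((Real.log r : ℝ) : EReal)) ≤
        logMax (FF q) r / ((Real.log r : ℝ) : EReal) := by
      apply EReal.div_le_div_right_of_nonneg _ h5
      exact_mod_cast h4.le
    refine lt_of_lt_of_le ?_ h6
    rw [← EReal.coe_div, EReal.coe_lt_coe_iff, lt_div_iff₀ h4]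
    have h7 : |x| * Real.log r + Real.log r ≤ 7 / 200 * r ^ lam := by
      have h8 : 0 < |x| + 1 := by positivity
      rw [div_mul_eq_mul_div, le_div_iff₀ h8] at hr
      linarith
    have h9 : x * Real.log r ≤ |x| * Real.log r := by
      apply mul_le_mul_of_nonneg_right (le_abs_self x) h4.le
    linarith
  · refine lt_of_lt_of_le hL ?_
    rw [EReal.coe_le_coe_iff]
    exact Real.neg_one_le_cos _

end Pool.Agent.Results.MP_fc0bf6_an.LiteralForm
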